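import Pool.Agent.helper91.RB.Spec2

/-! Row rb:VAL. -/

namespace Pool.Agent.RB

open NumberField IsDedekindDomain Module Filter Topology NumberField.InfinitePlace NumberField.Units
open scoped nonZeroDivisors Real Classical

/-- the analytic core -/
theorem VAL_core (n : ℕ) (LK Lk A zK zk : ℂ → ℂ) (dK dk rK rk : ℝ) (hdK : 0 < dK) (hdk : 0 < dk)
    (hLK : DifferentiableOn ℂ LK {0, 1}ᶜ) (hLk : DifferentiableOn ℂ Lk {0, 1}ᶜ)
    (feK : ∀ s : ℂ, s ≠ 0 → s ≠ 1 → LK (1 - s) = LK s) (fek : ∀ s : ℂ, s ≠ 0 → s ≠ 1 → Lk (1 - s) = Lk s)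
    (hK : ∀ s : ℂ, 1 < s.re → LK s = (dK : ℂ) ^ (s / 2) * Complex.Gammaℂ s ^ n * zK s)
    (hk : ∀ s : ℂ, 1 < s.re → Lk s = (dk : ℂ) ^ (s / 2) * Complex.Gammaℝ s ^ n * zk s)
    (hA : DifferentiableOn ℂ A {1}ᶜ) (hAz : ∀ s : ℂ, 1 < s.re → zK s = A s * zk s)
    (hrK : Tendsto (fun s : ℝ => ((s : ℂ) - 1) * zK s) (𝓝[>] 1) (𝓝 (rK : ℂ)))
    (hrk : Tendsto (fun s : ℝ => ((s : ℂ) - 1) * zk s) (𝓝[>] 1) (𝓝 (rk : ℂ))) :
    A 0 * ((dk : ℂ) ^ ((1 : ℂ) / 2) * rk) = (dK : ℂ) ^ ((1 : ℂ) / 2) * (1 / (π : ℂ)) ^ n * rK := by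
  have hdK0 : (dK : ℂ) ≠ 0 := by exact_mod_cast hdK.ne'
  have hdk0 : (dk : ℂ) ≠ 0 := by exact_mod_cast hdk.ne'
  set F1 : ℂ → ℂ := fun s => LK s * ((Complex.Gammaℝ (s + 1))⁻¹) ^ n * (dk : ℂ) ^ (s / 2) with hF1
  set F2 : ℂ → ℂ := fun s => (dK : ℂ) ^ (s / 2) * A s * Lk s with hF2
  have hopen : IsOpen ({0, 1}ᶜ : Set ℂ) := (Set.toFinite _).isClosed.isOpen_compl
  have hpk : Differentiable ℂ (fun s : ℂ => (dk : ℂ) ^ (s / 2)) := fun s =>
    (differentiableAt_id.div_const 2).const_cpow (Or.inl hdk0)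
  have hpK : Differentiable ℂ (fun s : ℂ => (dK : ℂ) ^ (s / 2)) := fun s =>
    (differentiableAt_id.div_const 2).const_cpow (Or.inl hdK0)
  have hG : Differentiable ℂ (fun s : ℂ => ((Complex.Gammaℝ (s + 1))⁻¹) ^ n) := by
    have h1 : Differentiable ℂ (fun s : ℂ => (Complex.Gammaℝ (s + 1))⁻¹) :=
      Complex.differentiable_Gammaℝ_inv.comp (differentiable_id.add_const 1)
    exact h1.pow n
  have hA' : DifferentiableOn ℂ A {0, 1}ᶜ := hA.mono (by
    intro s hs
    simp only [Set.mem_compl_iff, Set.mem_insert_iff, Set.mem_singleton_iff, not_or] at hs ⊢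
    exact hs.2)
  have d1 : DifferentiableOn ℂ F1 {0, 1}ᶜ := (hLK.mul hG.differentiableOn).mul hpk.differentiableOn
  have d2 : DifferentiableOn ℂ F2 {0, 1}ᶜ := (hpK.differentiableOn.mul hA').mul hLk
  have hconn : IsPreconnected ({0, 1}ᶜ : Set ℂ) := by
    refine (Set.Countable.isConnected_compl_of_one_lt_rank (by simp) ?_).2
    exact (Set.toFinite _).countable
  have heq1 : ∀ s : ℂ, 1 < s.re → F1 s = F2 s := by
    intro s hs
    have hg : Complex.Gammaℝ (s + 1) ≠ 0 := Complex.Gammaℝ_ne_zero_of_re_pos (by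
      rw [Complex.add_re, Complex.one_re]; linarith)
    simp only [hF1, hF2]
    rw [hK s hs, hk s hs, ← Complex.Gammaℝ_mul_Gammaℝ_add_one, hAz s hs, mul_pow, inv_pow]
    field_simp
  have h2mem : (2 : ℂ) ∈ ({0, 1}ᶜ : Set ℂ) := by
    simp only [Set.mem_compl_iff, Set.mem_insert_iff, Set.mem_singleton_iff, not_or]
    constructor <;> norm_num
  have hEq : Set.EqOn F1 F2 {0, 1}ᶜ := by
    refine (d1.analyticOnNhd hopen).eqOn_of_preconnected_of_eventuallyEq (d2.analyticOnNhd hopen) hconn h2mem ?_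
    have hop : IsOpen {s : ℂ | 1 < s.re} := isOpen_lt continuous_const Complex.continuous_re
    filter_upwards [hop.mem_nhds (show (2 : ℂ) ∈ {s : ℂ | 1 < s.re} by simp)] with s hs
    exact heq1 s hs
  -- the map s ↦ 1 - s
  have hsub : Tendsto (fun s : ℝ => 1 - s) (𝓝[<] 0) (𝓝[>] 1) := by
    refine tendsto_nhdsWithin_iff.mpr ⟨?_, ?_⟩
    · have : Tendsto (fun s : ℝ => 1 - s) (𝓝 0) (𝓝 (1 - 0)) := (continuous_const.sub continuous_id).tendsto 0
      rw [sub_zero] at this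
      exact this.mono_left nhdsWithin_le_nhds
    · filter_upwards [self_mem_nhdsWithin] with s hs
      have : s < 0 := hs
      show (1 : ℝ) < 1 - s
      linarith
  have hof : Tendsto (fun s : ℝ => (s : ℂ)) (𝓝[>] 1) (𝓝 (1 : ℂ)) := by
    have : Tendsto (fun s : ℝ => (s : ℂ)) (𝓝 1) (𝓝 ((1 : ℝ) : ℂ)) := Complex.continuous_ofReal.tendsto 1
    rw [Complex.ofReal_one] at this
    exact this.mono_left nhdsWithin_le_nhds
  have hof0 : Tendsto (fun s : ℝ => (s : ℂ)) (𝓝[<] 0) (𝓝 (0 : ℂ)) := by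
    have : Tendsto (fun s : ℝ => (s : ℂ)) (𝓝 0) (𝓝 ((0 : ℝ) : ℂ)) := Complex.continuous_ofReal.tendsto 0
    rw [Complex.ofReal_zero] at this
    exact this.mono_left nhdsWithin_le_nhds
  have cGC : ContinuousAt Complex.Gammaℂ 1 := by
    have h1 := (Complex.differentiable_Gammaℂ_inv.continuous.continuousAt (x := (1 : ℂ))).inv₀ (by
      rw [Complex.Gammaℂ_one]
      have : (π : ℂ) ≠ 0 := by exact_mod_cast Real.pi_ne_zero
      field_simp
      exact this)
    have h2 : (fun s : ℂ => (Complex.Gammaℂ s)⁻¹)⁻¹ = Complex.Gammaℂ := by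
      funext s
      exact inv_inv _
    rwa [h2] at h1
  have cGR : ContinuousAt Complex.Gammaℝ 1 := by
    have h1 := (Complex.differentiable_Gammaℝ_inv.continuous.continuousAt (x := (1 : ℂ))).inv₀ (by
      rw [Complex.Gammaℝ_one]
      simp)
    have h2 : (fun s : ℂ => (Complex.Gammaℝ s)⁻¹)⁻¹ = Complex.Gammaℝ := by
      funext s
      exact inv_inv _
    rwa [h2] at h1
  have lK1 : Tendsto (fun s : ℝ => ((s : ℂ) - 1) * LK s) (𝓝[>] 1)
      (𝓝 ((dK : ℂ) ^ ((1 : ℂ) / 2) * (1 / (π : ℂ)) ^ n * rK)) := by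
    have h1 : Tendsto (fun s : ℝ => (dK : ℂ) ^ ((s : ℂ) / 2)) (𝓝[>] 1) (𝓝 ((dK : ℂ) ^ ((1 : ℂ) / 2))) :=
      (hpK.continuous.tendsto 1).comp hof
    have h2 : Tendsto (fun s : ℝ => Complex.Gammaℂ (s : ℂ) ^ n) (𝓝[>] 1) (𝓝 ((1 / (π : ℂ)) ^ n)) := by
      rw [← Complex.Gammaℂ_one]
      exact (cGC.tendsto.comp hof).pow n
    refine ((h1.mul h2).mul hrK).congr' ?_
    filter_upwards [self_mem_nhdsWithin] with s hs
    have hs' : (1 : ℝ) < (s : ℂ).re := by rw [Complex.ofReal_re]; exact hs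
    rw [hK s hs']
    ring
  have lk1 : Tendsto (fun s : ℝ => ((s : ℂ) - 1) * Lk s) (𝓝[>] 1)
      (𝓝 ((dk : ℂ) ^ ((1 : ℂ) / 2) * rk)) := by
    have h1 : Tendsto (fun s : ℝ => (dk : ℂ) ^ ((s : ℂ) / 2)) (𝓝[>] 1) (𝓝 ((dk : ℂ) ^ ((1 : ℂ) / 2))) :=
      (hpk.continuous.tendsto 1).comp hof
    have h2 : Tendsto (fun s : ℝ => Complex.Gammaℝ (s : ℂ) ^ n) (𝓝[>] 1) (𝓝 (1 ^ n)) := by
      rw [← Complex.Gammaℝ_one]
      exact (cGR.tendsto.comp hof).pow n
    have h3 := (h1.mul h2).mul hrk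
    rw [one_pow, mul_one] at h3
    refine h3.congr' ?_
    filter_upwards [self_mem_nhdsWithin] with s hs
    have hs' : (1 : ℝ) < (s : ℂ).re := by rw [Complex.ofReal_re]; exact hs
    rw [hk s hs']
    ring
  have mK := lK1.comp hsub
  have mk := lk1.comp hsub
  -- limits at 0-
  have t1 : Tendsto (fun s : ℝ => -(s : ℂ) * F1 s) (𝓝[<] 0)
      (𝓝 ((dK : ℂ) ^ ((1 : ℂ) / 2) * (1 / (π : ℂ)) ^ n * rK)) := by
    have h1 : Tendsto (fun s : ℝ => ((Complex.Gammaℝ ((s : ℂ) + 1))⁻¹) ^ n) (𝓝[<] 0) (𝓝 1) := by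
      have := (hG.continuous.tendsto 0).comp hof0
      rw [zero_add, Complex.Gammaℝ_one, inv_one, one_pow] at this
      exact this
    have h2 : Tendsto (fun s : ℝ => (dk : ℂ) ^ ((s : ℂ) / 2)) (𝓝[<] 0) (𝓝 1) := by
      have := (hpk.continuous.tendsto 0).comp hof0
      rw [zero_div, Complex.cpow_zero] at this
      exact this
    have h3 := (mK.mul h1).mul h2
    rw [mul_one, mul_one] at h3
    refine h3.congr' ?_
    filter_upwards [self_mem_nhdsWithin] with s hs
    have hs0 : s < 0 := hs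
    have e1 : LK (((1 - s : ℝ) : ℂ)) = LK s := by
      rw [Complex.ofReal_sub, Complex.ofReal_one]
      exact feK s (by exact_mod_cast hs0.ne) (by
        intro h
        have : s = 1 := by exact_mod_cast h
        linarith)
    simp only [Function.comp_apply, hF1]
    rw [e1]
    push_cast
    ring
  have t2 : Tendsto (fun s : ℝ => -(s : ℂ) * F2 s) (𝓝[<] 0)
      (𝓝 (A 0 * ((dk : ℂ) ^ ((1 : ℂ) / 2) * rk))) := by
    have h1 : Tendsto (fun s : ℝ => A (s : ℂ)) (𝓝[<] 0) (𝓝 (A 0)) := by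
      have hc : ContinuousAt A 0 := (hA.differentiableAt (isOpen_compl_singleton.mem_nhds (by simp))).continuousAt
      exact hc.tendsto.comp hof0
    have h2 : Tendsto (fun s : ℝ => (dK : ℂ) ^ ((s : ℂ) / 2)) (𝓝[<] 0) (𝓝 1) := by
      have := (hpK.continuous.tendsto 0).comp hof0
      rw [zero_div, Complex.cpow_zero] at this
      exact this
    have h3 := (h2.mul h1).mul mk
    rw [one_mul] at h3
    refine h3.congr' ?_
    filter_upwards [self_mem_nhdsWithin] with s hs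
    have hs0 : s < 0 := hs
    have e1 : Lk (((1 - s : ℝ) : ℂ)) = Lk s := by
      rw [Complex.ofReal_sub, Complex.ofReal_one]
      exact fek s (by exact_mod_cast hs0.ne) (by
        intro h
        have : s = 1 := by exact_mod_cast h
        linarith)
    simp only [Function.comp_apply, hF2]
    rw [e1]
    push_cast
    ring
  refine tendsto_nhds_unique t2 (t1.congr' ?_)
  filter_upwards [self_mem_nhdsWithin] with s hs
  have hs0 : s < 0 := hs
  have hmem : (s : ℂ) ∈ ({0, 1}ᶜ : Set ℂ) := by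
    simp only [Set.mem_compl_iff, Set.mem_insert_iff, Set.mem_singleton_iff, not_or]
    refine ⟨by exact_mod_cast hs0.ne, ?_⟩
    intro h
    have : s = 1 := by exact_mod_cast h
    linarith
  rw [hEq hmem]

/-- the torsion of a totally real field -/
theorem VAL_tors (F : Type) [Field F] [NumberField F] [IsTotallyReal F] : torsionOrder F = 2 := by
  have hpos : 0 < nrRealPlaces F := by
    rw [← IsTotallyReal.finrank]
    exact finrank_pos
  have key : ∀ x : torsion F, (x : (𝓞 F)ˣ) = 1 ∨ (x : (𝓞 F)ˣ) = -1 := by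
    intro x
    by_cases! hc : 2 < orderOf (x : (𝓞 F)ˣ)
    · have ho : orderOf (((x : (𝓞 F)ˣ) : 𝓞 F) : F) = orderOf (x : (𝓞 F)ˣ) := by
        rw [← orderOf_units (y := (x : (𝓞 F)ˣ))]
        exact orderOf_injective (algebraMap (𝓞 F) F : 𝓞 F →* F) RingOfIntegers.coe_injective _
      rw [← ho] at hc
      linarith [IsPrimitiveRoot.nrRealPlaces_eq_zero_of_two_lt hc
        (IsPrimitiveRoot.orderOf (((x : (𝓞 F)ˣ) : 𝓞 F) : F))]
    · interval_cases hi : orderOf (x : (𝓞 F)ˣ)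
      · linarith [orderOf_pos_iff.2 ((CommGroup.mem_torsion x.1).1 x.2)]
      · exact Or.intro_left _ (orderOf_eq_one_iff.1 hi)
      · rw [← orderOf_units, CharP.orderOf_eq_two_iff 0 (by decide)] at hi
        simp [← Units.val_inj, ← Units.val_inj, Units.val_neg, Units.val_one, hi]
  let := Fintype.ofFinite (torsion F)
  rw [torsionOrder, Nat.card_eq_fintype_card]
  refine (Finset.card_eq_two.2 ⟨1, ⟨-1, neg_one_mem_torsion⟩,
    by simp [← Subtype.coe_ne_coe], Finset.ext fun x ↦ ⟨fun _ ↦ ?_, fun _ ↦ Finset.mem_univ _⟩⟩)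
  rw [Finset.mem_insert, Finset.mem_singleton, ← Subtype.val_inj, ← Subtype.val_inj]
  exact key x

/-- the residue for a real variable, as a complex limit -/
theorem VAL_res (F : Type) [Field F] [NumberField F] :
    Tendsto (fun s : ℝ => ((s : ℂ) - 1) * dedekindZeta F s) (𝓝[>] 1) (𝓝 ((dedekindZeta_residue F : ℝ) : ℂ)) :=
  tendsto_sub_one_mul_dedekindZeta_nhdsGT F

theorem VAL_sqrt (d : ℝ) (hd : 0 < d) : ((d : ℝ) : ℂ) ^ ((1 : ℂ) / 2) = ((Real.sqrt d : ℝ) : ℂ) := by
  rw [Real.sqrt_eq_rpow, Complex.ofReal_cpow hd.le]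
  norm_num

/-- VAL for `K⁺` -/
theorem VAL_plus (hFE : FE_stmt) (K : Type) [Field K] [NumberField K] [IsCMField K] (A : ℂ → ℂ)
    (hA : DifferentiableOn ℂ A {1}ᶜ)
    (hAz : ∀ s : ℂ, 1 < s.re → dedekindZeta K s = A s * dedekindZeta (maximalRealSubfield K) s) :
    A 0 * ((classNumber (maximalRealSubfield K) : ℂ) * (IsCMField.indexRealUnits K : ℂ) *
      (Units.torsionOrder K : ℂ)) = 2 ^ finrank ℚ (maximalRealSubfield K) * (classNumber K : ℂ) := by
  obtain ⟨LK, hLK, feK, hK⟩ := hFE K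
  obtain ⟨Lk, hLk, fek, hk⟩ := hFE (maximalRealSubfield K)
  set n := finrank ℚ (maximalRealSubfield K) with hn
  have hn0 : 0 < n := finrank_pos
  have hKc : nrComplexPlaces K = n := by
    have h1 := IsTotallyComplex.finrank K
    rw [← Module.finrank_mul_finrank ℚ (maximalRealSubfield K) K,
      Algebra.IsQuadraticExtension.finrank_eq_two (maximalRealSubfield K) K] at h1
    omega
  have hKr : nrRealPlaces K = 0 := IsTotallyComplex.nrRealPlaces_eq_zero K
  have hkr : nrRealPlaces (maximalRealSubfield K) = n := (IsTotallyReal.finrank (maximalRealSubfield K)).symm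
  have hkc : nrComplexPlaces (maximalRealSubfield K) = 0 :=
    IsTotallyReal.nrComplexPlaces_eq_zero _
  have hdK : (0 : ℝ) < |(discr K : ℝ)| := abs_pos.mpr (by exact_mod_cast discr_ne_zero K)
  have hdk : (0 : ℝ) < |(discr (maximalRealSubfield K) : ℝ)| :=
    abs_pos.mpr (by exact_mod_cast discr_ne_zero (maximalRealSubfield K))
  have core := VAL_core n LK Lk A (dedekindZeta K) (dedekindZeta (maximalRealSubfield K))
    |(discr K : ℝ)| |(discr (maximalRealSubfield K) : ℝ)|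
    (dedekindZeta_residue K) (dedekindZeta_residue (maximalRealSubfield K)) hdK hdk hLK hLk feK fek
    (by
      intro s hs
      rw [hK s hs, Ga, hKc, hKr, pow_zero, one_mul])
    (by
      intro s hs
      rw [hk s hs, Ga, hkc, hkr, pow_zero, mul_one])
    hA hAz (VAL_res K) (VAL_res (maximalRealSubfield K))
  rw [VAL_sqrt _ hdK, VAL_sqrt _ hdk] at core
  -- to real numbers: dedekindZeta residues
  have resK : dedekindZeta_residue K * Real.sqrt |(discr K : ℝ)| * (Units.torsionOrder K : ℝ) =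
      (2 * π) ^ n * regulator K * classNumber K := by
    rw [dedekindZeta_residue_def, hKc, hKr, pow_zero, one_mul]
    have h1 : Real.sqrt |(discr K : ℝ)| ≠ 0 := (Real.sqrt_pos.mpr hdK).ne'
    have h2 : (Units.torsionOrder K : ℝ) ≠ 0 := by exact_mod_cast Units.torsionOrder_ne_zero K
    field_simp
  have resk : dedekindZeta_residue (maximalRealSubfield K) * Real.sqrt |(discr (maximalRealSubfield K) : ℝ)| * 2 =
      2 ^ n * regulator (maximalRealSubfield K) * classNumber (maximalRealSubfield K) := by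
    rw [dedekindZeta_residue_def, hkc, hkr, pow_zero, mul_one, VAL_tors (maximalRealSubfield K)]
    have h1 : Real.sqrt |(discr (maximalRealSubfield K) : ℝ)| ≠ 0 := (Real.sqrt_pos.mpr hdk).ne'
    push_cast
    field_simp
  have hreg : regulator K * (IsCMField.indexRealUnits K : ℝ) * 2 = 2 ^ n * regulator (maximalRealSubfield K) := by
    have h1 := IsCMField.regulator_div_regulator_eq_two_pow_mul_indexRealUnits_inv K
    have h2 : (regulator (maximalRealSubfield K)) ≠ 0 := (regulator_pos _).ne'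
    have h3 : (IsCMField.indexRealUnits K : ℝ) ≠ 0 := by
      rcases IsCMField.indexRealUnits_eq_one_or_two K with h | h <;> rw [h] <;> norm_num
    have h4 : Units.rank K + 1 = n := by
      rw [Units.rank, card_eq_nrRealPlaces_add_nrComplexPlaces, hKc, hKr, zero_add]
      omega
    rw [← h4, pow_succ]
    rw [div_eq_iff h2] at h1
    rw [h1]
    field_simp
  -- combine over ℂ
  have resK' : ((dedekindZeta_residue K : ℝ) : ℂ) * ((Real.sqrt |(discr K : ℝ)| : ℝ) : ℂ) *
      (Units.torsionOrder K : ℂ) = (2 * (π : ℂ)) ^ n * ((regulator K : ℝ) : ℂ) * (classNumber K : ℂ) := by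
    exact_mod_cast congrArg (fun x : ℝ => (x : ℂ)) resK
  have resk' : ((dedekindZeta_residue (maximalRealSubfield K) : ℝ) : ℂ) *
      ((Real.sqrt |(discr (maximalRealSubfield K) : ℝ)| : ℝ) : ℂ) * 2 =
      2 ^ n * ((regulator (maximalRealSubfield K) : ℝ) : ℂ) * (classNumber (maximalRealSubfield K) : ℂ) := by
    exact_mod_cast congrArg (fun x : ℝ => (x : ℂ)) resk
  have hreg' : ((regulator K : ℝ) : ℂ) * (IsCMField.indexRealUnits K : ℂ) * 2 =
      2 ^ n * ((regulator (maximalRealSubfield K) : ℝ) : ℂ) := by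
    exact_mod_cast congrArg (fun x : ℝ => (x : ℂ)) hreg
  have hpi : (π : ℂ) ≠ 0 := by exact_mod_cast Real.pi_ne_zero
  have hRk : ((regulator (maximalRealSubfield K) : ℝ) : ℂ) ≠ 0 := by
    exact_mod_cast (regulator_pos (maximalRealSubfield K)).ne'
  have h2n : (2 : ℂ) ^ n ≠ 0 := pow_ne_zero _ two_ne_zero
  rw [mul_pow] at resK'
  have hpin : (1 / (π : ℂ)) ^ n * (π : ℂ) ^ n = 1 := by
    rw [← mul_pow, one_div, inv_mul_cancel₀ hpi, one_pow]
  refine mul_left_cancel₀ (mul_ne_zero h2n hRk) ?_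
  linear_combination
    (2 * (IsCMField.indexRealUnits K : ℂ) * (Units.torsionOrder K : ℂ)) * core
    - A 0 * (IsCMField.indexRealUnits K : ℂ) * (Units.torsionOrder K : ℂ) * resk'
    + 2 * (IsCMField.indexRealUnits K : ℂ) * (1 / (π : ℂ)) ^ n * resK'
    + 2 * (IsCMField.indexRealUnits K : ℂ) * 2 ^ n * ((regulator K : ℝ) : ℂ) * (classNumber K : ℂ) * hpin
    + 2 ^ n * (classNumber K : ℂ) * hreg'

/-- the Dedekind zeta function is invariant under isomorphism -/
theorem VAL_zeta (k F : Type) [Field k] [NumberField k] [Field F] [NumberField F] (e : k ≃+* F) (s : ℂ) :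
    dedekindZeta k s = dedekindZeta F s := by
  set f : 𝓞 k ≃+* 𝓞 F := RingOfIntegers.mapRingEquiv e
  have key : ∀ I : Ideal (𝓞 k), Ideal.absNorm (I.map (f : 𝓞 k →+* 𝓞 F)) = Ideal.absNorm I := by
    intro I
    rw [Ideal.absNorm_apply, Ideal.absNorm_apply, Submodule.cardQuot_apply, Submodule.cardQuot_apply]
    exact (Nat.card_congr (Ideal.quotientEquiv I (I.map (f : 𝓞 k →+* 𝓞 F)) f rfl).toEquiv).symm
  have hcard : ∀ n : ℕ, Nat.card {I : Ideal (𝓞 k) // Ideal.absNorm I = n} =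
      Nat.card {I : Ideal (𝓞 F) // Ideal.absNorm I = n} := by
    intro n
    refine Nat.card_congr ?_
    refine Equiv.subtypeEquiv f.symm.idealComapOrderIso.toEquiv ?_
    intro I
    have : f.symm.idealComapOrderIso.toEquiv I = I.map (f : 𝓞 k →+* 𝓞 F) := by
      show Ideal.comap (f.symm : 𝓞 F →+* 𝓞 k) I = _
      exact (Ideal.map_comap_of_equiv f).symm
    rw [this, key]
  unfold dedekindZeta
  simp only [hcard]

theorem VAL_class (k F : Type) [Field k] [NumberField k] [Field F] [NumberField F] (e : k ≃+* F) :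
    classNumber k = classNumber F := by
  unfold classNumber
  exact Fintype.card_congr (ClassGroup.mulEquiv (RingOfIntegers.mapRingEquiv e)).toEquiv

theorem VAL (hFE : FE_stmt) : VAL_stmt := by
  intro k K _ _ _ _ _ _ _ _ A hA hAz
  have e : k ≃+* maximalRealSubfield K := CMExtension.equivMaximalRealSubfield k K
  have h1 : finrank ℚ k = finrank ℚ (maximalRealSubfield K) := e.toRatAlgEquiv.toLinearEquiv.finrank_eq
  rw [VAL_class k _ e, h1]
  refine VAL_plus hFE K A hA ?_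
  intro s hs
  rw [hAz s hs, VAL_zeta k _ e]

end Pool.Agent.RB

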